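import Pool.Agent.MP_6a4325_al.H62.Base2

/-!
Row SUFF: the induction on the derived length.
-/

set_option autoImplicit false

namespace Pool.Agent.MP_6a4325_al.H23

open Pool.Agent.MP_6a4325_al.H62

theorem fi_of_fun {G X : Type} [Group G] (N : Subgroup G) (φ : G → X) (h : (Set.range φ).Finite)
    (hφ : ∀ g g', φ g = φ g' → g⁻¹ * g' ∈ N) : N.FiniteIndex := by
  have := h.to_subtype
  have : Finite (G ⧸ N) := Finite.of_injective
    (fun q : G ⧸ N => (⟨φ q.out, _, rfl⟩ : Set.range φ)) fun q q' e => by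
      rw [← q.out_eq', ← q'.out_eq']
      exact QuotientGroup.eq.2 (hφ _ _ (congrArg Subtype.val e))
  exact Subgroup.finiteIndex_of_finite_quotient

theorem roots_finite (k : Type) [Field k] {m : ℕ} (hm : 0 < m) : {x : kˣ | x ^ m = 1}.Finite := by
  have : NeZero m := ⟨hm.ne'⟩
  have : Finite (rootsOfUnity m k) := inferInstance
  exact Set.toFinite (rootsOfUnity m k : Set kˣ)

variable {p : ℕ} [Fact p.Prime] {k : Type} [Field k] [CharP k p] [IsAlgClosed k]

omit [CharP k p] [IsAlgClosed k] in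
theorem red (hB : SBig) (Φ : ∀ (G : Type) [Group G], Subgroup G → Prop)
    (hq : ∀ (G Q : Type) [Group G] [Group Q] (f : G →* Q), Function.Surjective f →
      ∀ Z : Subgroup G, Φ G Z → Φ Q (Z.map f))
    (h : ∀ (G M : Type) [Group G] [AddCommGroup M] [Module k M] (ρ : Representation k G M)
      (Z : Subgroup G), Cl p Z → Φ G Z → Irr ρ → Function.Injective ρ → FD k G)
    (G : Type) [Group G] (Z : Subgroup G) (hZ : Cl p Z) (hΦ : Φ G Z) : FD k G := by
  intro M _ _ ρ hρ
  have hs := QuotientGroup.mk'_surjective (MonoidHom.ker ρ)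
  obtain ⟨σ, hσ, e⟩ := hρ.descend (QuotientGroup.mk' (MonoidHom.ker ρ)) hs
    fun g hg => (QuotientGroup.eq_one_iff g).1 hg
  refine h _ M σ _ ((hB p).clQuot G _ _ hs Z hZ) (hq G _ _ hs Z hΦ) hσ (fun a b hab => ?_) M σ hσ
  obtain ⟨a, rfl⟩ := hs a
  obtain ⟨b, rfl⟩ := hs b
  rw [e, e] at hab
  refine QuotientGroup.eq.2 (MonoidHom.mem_ker.2 ?_)
  rw [map_mul, ← hab, ← map_mul, inv_mul_cancel, map_one]

theorem exists_lam (hS : SScal) (ha : Absolute k) {G M : Type} [Group G] [AddCommGroup M]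
    [Module k M] {ρ : Representation k G M} {Z : Subgroup G} (hZ : Cl p Z) (hρ : Irr ρ)
    (hi : Function.Injective ρ) : ∃ lam : Z →* kˣ, Function.Injective lam := by
  have := hρ.1
  have h1 : ∀ z : Z, ∃ c : k, ρ z = c • (1 : M →ₗ[k] M) := fun z =>
    hS p k G M ρ ha hZ.1 hZ.2.1 hZ.2.2.1 hρ z
      (Subgroup.mem_center_iff.2 fun g => (hZ.2.2.2.1 z z.2 g trivial).symm)
  choose c hc using h1
  have inj : ∀ a b : k, a • (1 : M →ₗ[k] M) = b • 1 → a = b := fun a b e =>
    smul_left_injective k one_ne_zero e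
  let c' : Z →* k :=
    { toFun := c
      map_one' := inj _ _ (by rw [← hc, one_smul]; exact map_one ρ)
      map_mul' := fun a b => inj _ _ (by
        rw [← hc, Subgroup.coe_mul, map_mul, hc, hc, smul_mul_smul_comm, one_mul]) }
  refine ⟨c'.toHomUnits, fun a b e => Subtype.ext (hi ?_)⟩
  have h2 : c a = c b := congrArg Units.val e
  rw [hc, hc, h2]

omit [Fact p.Prime] in
theorem cl_normal {G : Type} [Group G] {Z : Subgroup G} (hZ : Cl p Z) : Z.Normal :=
  ⟨fun z hz g => by rw [← hZ.2.2.2.1 z hz g trivial, mul_inv_cancel_right]; exact hz⟩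

theorem cl_cent (hB : SBig) {G : Type} [Group G] {Z : Subgroup G} (hZ : Cl p Z) (N : Subgroup G) :
    Cl p ((N ⊓ Subgroup.centralizer (N : Set G)).subgroupOf N) :=
  (hB p).clSub G Z N _ hZ
    (fun z hz => ⟨hz.2, fun g _ => (hZ.2.2.2.1 z hz.1 g trivial).symm⟩) inf_le_left
    fun _ ha b hb => (ha.2 b hb).symm

theorem base (hS : SScal) (ha : Absolute k) (G : Type) [Group G] (Z : Subgroup G) (hZ : Cl p Z)
    (h : derivedSeries G 0 ≤ Z) : FD k G := by
  intro M _ _ ρ hρ
  have := hρ.1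
  obtain ⟨v, hv⟩ := exists_ne (0 : M)
  have h1 : Inv ρ (Submodule.span k {v}) := fun g u hu => by
    obtain ⟨c, hc⟩ := hS p k G M ρ ha hZ.1 hZ.2.1 hZ.2.2.1 hρ g
      (Subgroup.mem_center_iff.2 fun x => (hZ.2.2.2.1 g (h trivial) x trivial).symm)
    rw [hc]
    exact Submodule.smul_mem _ c hu
  have h2 := (hρ.2 _ h1).resolve_left fun e => hv (Submodule.span_singleton_eq_bot.1 e)
  exact ⟨⟨{v}, by rw [Finset.coe_singleton, h2]⟩⟩

omit [Fact p.Prime] [CharP k p] [IsAlgClosed k] in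
theorem cent_fi {G : Type} [Group G] {Z D : Subgroup G} (hZ : Cl p Z) [D.Normal] (lam : Z →* kˣ)
    (hl : Function.Injective lam) (h : Z.relIndex D ≠ 0) :
    (Subgroup.centralizer (D : Set G)).FiniteIndex := by
  have := cl_normal hZ
  have hc := hZ.2.2.2.1
  have hfin : Finite (D.map (QuotientGroup.mk' Z)) := by
    refine Nat.finite_of_card_ne_zero ?_
    rwa [← Subgroup.relIndex_ker, QuotientGroup.ker_mk']
  have hT : {z : Z | z ^ Z.relIndex D = 1}.Finite :=
    ((roots_finite k (Nat.pos_of_ne_zero h)).preimage hl.injOn).subset fun z hz => by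
      have h1 : z ^ Z.relIndex D = 1 := hz
      show lam z ^ Z.relIndex D = 1
      rw [← map_pow, h1, map_one]
  have hS : ∀ f : G, {x : G | x ∈ D ∧ x ^ Z.relIndex D = f}.Finite := fun f => by
    refine Set.Finite.of_finite_fibers (QuotientGroup.mk' Z)
      ((Set.toFinite (D.map (QuotientGroup.mk' Z) : Set (G ⧸ Z))).subset ?_) ?_
    · rintro _ ⟨x, hx, rfl⟩
      exact ⟨x, hx.1, rfl⟩
    · rintro _ ⟨y, hy, rfl⟩
      refine (hT.image fun z : Z => y * z).subset fun x hx => ?_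
      have h1 : y⁻¹ * x ∈ Z := QuotientGroup.eq.1 (Eq.symm hx.2)
      refine ⟨⟨_, h1⟩, Subtype.ext ?_, mul_inv_cancel_left y x⟩
      have h2 : Commute y (y⁻¹ * x) := (hc _ h1 y trivial).symm
      have h3 := h2.mul_pow (Z.relIndex D)
      rw [mul_inv_cancel_left, hx.1.2, hy.2] at h3
      exact (left_eq_mul.1 h3)
  have h1 : ∀ i : D.map (QuotientGroup.mk' Z), ∃ x ∈ D, QuotientGroup.mk' Z x = i := fun i => i.2
  choose s hs hs' using h1
  refine fi_of_fun _ (fun g i => g * s i * g⁻¹)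
    ((Set.Finite.pi' fun i => hS (s i ^ Z.relIndex D)).subset ?_) fun g g' e x hx => ?_
  · rintro _ ⟨g, rfl⟩ i
    refine ⟨Subgroup.Normal.conj_mem inferInstance _ (hs i) _, ?_⟩
    beta_reduce
    rw [conj_pow, ← hc _ (Z.pow_relIndex_mem (hs i)) _ trivial, mul_inv_cancel_right]
  · have h2 := congrFun e ⟨_, x, hx, rfl⟩
    have h3 : (s ⟨_, x, hx, rfl⟩)⁻¹ * x ∈ Z := QuotientGroup.eq.1 (hs' _)
    beta_reduce at h2
    generalize s _ = y at h2 h3
    have h4 : Commute y (g⁻¹ * g') := by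
      show y * (g⁻¹ * g') = g⁻¹ * g' * y
      calc y * (g⁻¹ * g') = g⁻¹ * (g * y * g⁻¹) * g' := by group
        _ = _ := by rw [h2]; group
    have h5 : Commute (y⁻¹ * x) (g⁻¹ * g') := hc _ h3 _ trivial
    have h6 := h4.mul_left h5
    rwa [mul_inv_cancel_left] at h6

omit [IsAlgClosed k] in
theorem cent_rel (hH : SHom) (hS : SSer) (ha : Absolute k) {G : Type} [Group G] {Z D : Subgroup G}
    (hZ : Cl p Z) (lam : Z →* kˣ) (hl : Function.Injective lam) (h : ⁅D, D⁆ ≤ Z) :
    (Subgroup.centralizer (D : Set G)).relIndex D ≠ 0 := by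
  have hc := hZ.2.2.2.1
  have s1 : Ser p (Z ⊓ D) D := by simpa using (hS p).inf G Z ⊤ D hZ.2.2.2.2
  have s2 : Ser p (Z.comap D.subtype) ⊤ := by
    simpa using (hS p).comap G D D.subtype Z ⊤ hZ.2.2.2.2
  let X : Subgroup (D →* kˣ) :=
    { carrier := {f | ∀ x : D, (x : G) ∈ Z ⊓ D → f x = 1}
      mul_mem' := fun {a b} h1 h2 x hx => by rw [MonoidHom.mul_apply, h1 x hx, h2 x hx, one_mul]
      one_mem' := fun _ _ => rfl
      inv_mem' := fun {a} h1 x hx => by rw [MonoidHom.inv_apply, h1 x hx, inv_one] }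
  have hm : ∀ a b : D, (a : G) * b * (a : G)⁻¹ * (b : G)⁻¹ ∈ Z := fun a b =>
    h (Subgroup.commutator_mem_commutator a.2 b.2)
  let c : D → D → Z := fun a b => ⟨_, hm a b⟩
  have c1 : ∀ a b b', c a (b * b') = c a b * c a b' := fun a b b' => Subtype.ext (by
    have h1 := hc _ (hm a b') (b : G)⁻¹ trivial
    show (a : G) * (b * b') * (a : G)⁻¹ * ((b : G) * b')⁻¹ =
      a * b * (a : G)⁻¹ * (b : G)⁻¹ * (a * b' * (a : G)⁻¹ * (b' : G)⁻¹)
    rw [mul_assoc _ (b : G)⁻¹, ← h1]
    group)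
  have c2 : ∀ a a' b, c (a * a') b = c a b * c a' b := fun a a' b => Subtype.ext (by
    have h1 := hc _ (hm a' b) ((b : G) * (a : G)⁻¹ * (b : G)⁻¹) trivial
    show (a : G) * a' * b * ((a : G) * a')⁻¹ * (b : G)⁻¹ =
      a * b * (a : G)⁻¹ * (b : G)⁻¹ * (a' * b * (a' : G)⁻¹ * (b : G)⁻¹)
    calc _ = a * (a' * b * (a' : G)⁻¹ * (b : G)⁻¹ * ((b : G) * (a : G)⁻¹ * (b : G)⁻¹)) := by group
      _ = _ := by rw [h1]; group)
  let δ : D → X := fun a => ⟨lam.comp (MonoidHom.mk' (c a) (c1 a)), fun x hx => by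
    have h1 : c a x = 1 := Subtype.ext (by
      show (a : G) * x * (a : G)⁻¹ * (x : G)⁻¹ = 1
      rw [← hc _ hx.1 a trivial]; group)
    show lam (c a x) = 1
    rw [h1, map_one]⟩
  have d1 : ∀ a a', δ (a * a') = δ a * δ a' := fun a a' => Subtype.ext (MonoidHom.ext fun b => by
    show lam (c (a * a') b) = lam (c a b) * lam (c a' b)
    rw [c2, map_mul])
  have hfin := (hH p k ha).coc D X (Z.comap D.subtype) s2 (fun x => ?_) (fun m hm => ?_)
    (fun x hx => ?_) 1 δ d1 fun z hz => ?_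
  · refine (fi_of_fun ((Subgroup.centralizer (D : Set G)).subgroupOf D) δ hfin
      fun g g' e x hx => ?_).index_ne_zero
    have h1 : δ (g⁻¹ * g') = 1 := by
      have h2 := (MonoidHom.mk' δ d1).map_mul g⁻¹ g'
      rw [map_inv] at h2
      exact h2.trans (inv_mul_eq_one.2 e)
    have h2 : lam (c (g⁻¹ * g') ⟨x, hx⟩) = 1 := congrArg (fun f : X => f.1 ⟨x, hx⟩) h1
    have h3 := congrArg Subtype.val (hl (h2.trans lam.map_one.symm))
    exact (commutatorElement_eq_one_iff_mul_comm.1 h3).symm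
  · have h1 : Finite x.1.range := (hH p k ha).range G _ D s1 x.1 x.2
    refine isOfFinOrder_iff_pow_eq_one.2 ⟨Nat.card x.1.range, Nat.card_pos,
      Subtype.ext (MonoidHom.ext fun b => ?_)⟩
    exact congrArg Subtype.val (pow_card_eq_one' (x := (⟨x.1 b, b, rfl⟩ : x.1.range)))
  · exact (((hH p k ha).tors G _ D s1 m hm).preimage Subtype.val_injective.injOn).subset
      fun x hx => ⟨x.2, fun b => congrArg (fun f : X => f.1 b) hx⟩
  · refine Subtype.ext (MonoidHom.ext fun b => Units.ext ?_)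
    have h1 : (x.1 b : k) ^ p = 1 ^ p := by
      rw [one_pow]
      exact congrArg (fun f : X => (f.1 b : k)) hx
    exact frobenius_inj k p h1
  · refine Subtype.ext (MonoidHom.ext fun b => ?_)
    have h1 : c z b = 1 := Subtype.ext (by
      show (z : G) * b * (z : G)⁻¹ * (b : G)⁻¹ = 1
      rw [show (z : G) * b = b * z from hc _ hz b trivial]; group)
    show lam (c z b) = 1
    rw [h1, map_one]

theorem suff : SScal → SStepA → SHom → SFI → SBig → SSer → SSuff := by
  intro hS hA hH hF hB hSer p _ k G _ _ _ _ ha Z hZ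
  have main : ∀ (d : ℕ) (G : Type) [Group G] (Z : Subgroup G), Cl p Z → derivedSeries G d ≤ Z →
      FD k G := by
    intro d
    induction d with
    | zero => exact base hS ha
    | succ d ih =>
      have ih' : ∀ (G : Type) [Group G] (Z : Subgroup G), Cl p Z →
          Z.relIndex (derivedSeries G d) ≠ 0 → FD k G := by
        refine red hB (fun G _ Z => Z.relIndex (derivedSeries G d) ≠ 0) ?_ ?_
        · intro G Q _ _ f hf Z h e
          rw [← map_derivedSeries_eq hf, ← Subgroup.relIndex_comap] at e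
          exact h (Subgroup.relIndex_eq_zero_of_le_left (Subgroup.le_comap_map f Z) e)
        · intro G M _ _ _ ρ Z hZ h hρ hi
          obtain ⟨lam, hl⟩ := exists_lam hS ha hZ hρ hi
          refine hF k G _ (cent_fi hZ lam hl h) (ih _ _ (cl_cent hB hZ _) fun x hx => ?_)
          exact ⟨x.2, fun g hg =>
            (hg _ (map_derivedSeries_le_derivedSeries (Subgroup.subtype _) d ⟨x, hx, rfl⟩)).symm⟩
      refine red hB (fun G _ Z => derivedSeries G (d + 1) ≤ Z) ?_ ?_
      · intro G Q _ _ f hf Z h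
        rw [← map_derivedSeries_eq hf]
        exact Subgroup.map_mono h
      · intro G M _ _ _ ρ Z hZ h hρ hi
        obtain ⟨lam, hl⟩ := exists_lam hS ha hZ hρ hi
        have h1 := cent_rel hH hSer ha hZ lam hl h
        let C := Subgroup.centralizer (derivedSeries G d : Set G)
        have h2 := hA p k G M ρ ha Z hZ hρ hi (C ⊓ Subgroup.centralizer (C : Set G)) inferInstance
          (fun a h1 b h2 => h2.2 a h1.1) fun z hz =>
            ⟨fun g _ => (hZ.2.2.2.1 z hz g trivial).symm, fun g _ => (hZ.2.2.2.1 z hz g trivial).symm⟩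
        refine hF k G _ h2 (ih' _ _ (cl_cent hB hZ _) fun e => h1 ?_)
        have h3 := map_derivedSeries_le_derivedSeries (Subgroup.subtype
          (Subgroup.centralizer ((C ⊓ Subgroup.centralizer (C : Set G) : Subgroup G) : Set G))) d
        rw [Subgroup.subgroupOf, Subgroup.relIndex_comap] at e
        refine Subgroup.relIndex_eq_zero_of_le_right h3 ?_
        rw [← Subgroup.inf_relIndex_right]
        refine Subgroup.relIndex_eq_zero_of_le_left (fun x hx => ?_) e
        obtain ⟨h4, y, hy, rfl⟩ := hx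
        exact ⟨y.2, fun g hg => (hg _ ⟨h4, fun u hu => (hu _ (h3 ⟨y, hy, rfl⟩)).symm⟩).symm⟩
  obtain ⟨d, hd⟩ := hZ.1.solvable
  exact main d G Z hZ (hd ▸ bot_le)

end Pool.Agent.MP_6a4325_al.H23
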